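import Pool.Agent.Lib.Pbbea99G.E8.Data

/-!
# MP_bbea99_co: closure of the templates
-/

namespace MPbbea99G.E8

open MPbbea99S MPbbea99T MPbbea99G Finset

theorem ck_1608 : (chkV P V lk) 0x1000100010004000100000000000040004000400040004000400040004000 = true := by decide +kernel

theorem c_1409_1415 : allTr (chkV P V lk) tr_1409_1415 = true := by decide +kernel

theorem c_1592_1594 : allTr (chkV P V lk) tr_1592_1594 = true := by decide +kernel

theorem c_202_402 : allTr (chkV P V lk) tr_202_402 = true := by decide +kernel

theorem c_1548_1559 : allTr (chkV P V lk) tr_1548_1559 = true := by decide +kernel

theorem c_1523_1534 : allTr (chkV P V lk) tr_1523_1534 = true := by decide +kernel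

theorem c_1334_1358 : allTr (chkV P V lk) tr_1334_1358 = true := by decide +kernel

theorem c_1058_1082 : allTr (chkV P V lk) tr_1058_1082 = true := by decide +kernel

theorem c_1479_1484 : allTr (chkV P V lk) tr_1479_1484 = true := by decide +kernel

theorem c_1573_1584 : allTr (chkV P V lk) tr_1573_1584 = true := by decide +kernel

theorem c_1208_1258 : allTr (chkV P V lk) tr_1208_1258 = true := by decide +kernel

theorem c_1476_1478 : allTr (chkV P V lk) tr_1476_1478 = true := by decide +kernel

theorem c_1416_1421 : allTr (chkV P V lk) tr_1416_1421 = true := by decide +kernel

theorem c_1083_1107 : allTr (chkV P V lk) tr_1083_1107 = true := by decide +kernel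

theorem c_101_201 : allTr (chkV P V lk) tr_101_201 = true := by decide +kernel

theorem ck_1475 : (chkV P V lk) 0x1000000010001000600020002400040003fff40004000400040014000 = true := by decide +kernel

theorem c_1359_1408 : allTr (chkV P V lk) tr_1359_1408 = true := by decide +kernel

theorem c_1259_1308 : allTr (chkV P V lk) tr_1259_1308 = true := by decide +kernel

theorem c_604_704 : allTr (chkV P V lk) tr_604_704 = true := by decide +kernel

theorem c_1007_1057 : allTr (chkV P V lk) tr_1007_1057 = true := by decide +kernel

theorem ck_1472 : (chkV P V lk) 0x100000001000100030001000140004000400140004000400040003fff = true := by decide +kernel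

theorem ck_1478 : (chkV P V lk) 0x1000000000002000200030003000140004000400040004000400040013fff = true := by decide +kernel

theorem c_1435_1459 : allTr (chkV P V lk) tr_1435_1459 = true := by decide +kernel

theorem c_705_754 : allTr (chkV P V lk) tr_705_754 = true := by decide +kernel

theorem c_1108_1157 : allTr (chkV P V lk) tr_1108_1157 = true := by decide +kernel

theorem ck_1408 : (chkV P V lk) 0x1000500000003000100004000400040014000400040003fff4000 = true := by decide +kernel

theorem c_1460_1472 : allTr (chkV P V lk) tr_1460_1472 = true := by decide +kernel

theorem ck_1597 : (chkV P V lk) 0x1000000010006000100060006000040004000400040004000400040004000 = true := by decide +kernel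

theorem ck_1509 : (chkV P V lk) 0x10000000000050002000e000e000240004000400040004000400040013fff = true := by decide +kernel

theorem ck_1421 : (chkV P V lk) 0x100070000000f000700004000400040004001400040003fff4000 = true := by decide +kernel

theorem ck_1415 : (chkV P V lk) 0x100060000000a000400003fff4000400140004000400040004000 = true := by decide +kernel

theorem ck_1434 : (chkV P V lk) 0x100070000001c000e000040003fff400040004000400040004001 = true := by decide +kernel

theorem ck_1484 : (chkV P V lk) 0x1000000000003000200090009000140004000400040004000400040013fff = true := by decide +kernel

theorem ck_792 : (chkV P V lk) 0x20001000c00050002400140003fff40004000400040013fff = true := by decide +kernel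

theorem ck_1547 : (chkV P V lk) 0x1000000000006000200200020000240004000400040004000400040013fff = true := by decide +kernel

theorem ck_1522 : (chkV P V lk) 0x1000000000005000200270027000140004000400040004000400040013fff = true := by decide +kernel

theorem ck_1572 : (chkV P V lk) 0x1000000000007000200170017000140004000400040004000400040013fff = true := by decide +kernel

theorem ck_981 : (chkV P V lk) 0x4000100280018000240003fff400040004000400140013fff = true := by decide +kernel

theorem ck_603 : (chkV P V lk) 0x20014000a00044000400040003fff4000400040023fff = true := by decide +kernel

theorem ck_1157 : (chkV P V lk) 0x60000000e000200013fff40003fff40004000400040014001 = true := by decide +kernel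

theorem ck_201 : (chkV P V lk) 0x240020001040003fff40013fff3fff400140014000 = true := by decide +kernel

theorem ck_880 : (chkV P V lk) 0x30001001c0018000540003ffe400140004000400140013fff = true := by decide +kernel

theorem ck_905 : (chkV P V lk) 0x300020018001a00103ffe40003fff3fff4002400140023fff = true := by decide +kernel

theorem ck_1107 : (chkV P V lk) 0x500010036001b000540004001400140003ffe400040023ffe = true := by decide +kernel

theorem ck_1258 : (chkV P V lk) 0x60002001c000e000340003fff3fff40004000400040024000 = true := by decide +kernel

theorem ck_1358 : (chkV P V lk) 0x70001002900270006400040004001400040003ffe40023fff = true := by decide +kernel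

theorem ck_1207 : (chkV P V lk) 0x6000100180037000540013ffe400140004000400040023ffe = true := by decide +kernel

theorem ck_402 : (chkV P V lk) 0x1001a000d002e40023fff3fff400140013fff40003fff = true := by decide +kernel

end MPbbea99G.E8
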