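import Pool.Agent.Lib.Pbbea99G.E8.Data

/-!
# MP_bbea99_co: closure of the templates
-/

namespace MPbbea99G.E8

open MPbbea99S MPbbea99T MPbbea99G Finset

theorem c_1485_1497 : allTr (chkV P V lk) tr_1485_1497 = true := by decide +kernel

theorem c_1309_1333 : allTr (chkV P V lk) tr_1309_1333 = true := by decide +kernel

theorem c_856_880 : allTr (chkV P V lk) tr_856_880 = true := by decide +kernel

theorem c_1560_1572 : allTr (chkV P V lk) tr_1560_1572 = true := by decide +kernel

theorem c_793_804 : allTr (chkV P V lk) tr_793_804 = true := by decide +kernel

theorem c_403_603 : allTr (chkV P V lk) tr_403_603 = true := by decide +kernel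

theorem c_1183_1207 : allTr (chkV P V lk) tr_1183_1207 = true := by decide +kernel

theorem c_957_981 : allTr (chkV P V lk) tr_957_981 = true := by decide +kernel

theorem c_1510_1522 : allTr (chkV P V lk) tr_1510_1522 = true := by decide +kernel

theorem c_1535_1547 : allTr (chkV P V lk) tr_1535_1547 = true := by decide +kernel

theorem c_1498_1509 : allTr (chkV P V lk) tr_1498_1509 = true := by decide +kernel

theorem c_1473_1475 : allTr (chkV P V lk) tr_1473_1475 = true := by decide +kernel

theorem c_1598_1603 : allTr (chkV P V lk) tr_1598_1603 = true := by decide +kernel

theorem c_906_956 : allTr (chkV P V lk) tr_906_956 = true := by decide +kernel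

theorem c_1585_1591 : allTr (chkV P V lk) tr_1585_1591 = true := by decide +kernel

theorem c_0_100 : allTr (chkV P V lk) tr_0_100 = true := by decide +kernel

theorem c_1422_1428 : allTr (chkV P V lk) tr_1422_1428 = true := by decide +kernel

theorem c_1429_1434 : allTr (chkV P V lk) tr_1429_1434 = true := by decide +kernel

theorem ck_1606 : (chkV P V lk) 0x1000100000001000200010001000140004000400040004000400040013fff = true := by decide +kernel

theorem c_780_792 : allTr (chkV P V lk) tr_780_792 = true := by decide +kernel

theorem c_1607_1608 : allTr (chkV P V lk) tr_1607_1608 = true := by decide +kernel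

theorem c_1595_1597 : allTr (chkV P V lk) tr_1595_1597 = true := by decide +kernel

theorem c_1604_1606 : allTr (chkV P V lk) tr_1604_1606 = true := by decide +kernel

theorem c_982_1006 : allTr (chkV P V lk) tr_982_1006 = true := by decide +kernel

theorem c_805_855 : allTr (chkV P V lk) tr_805_855 = true := by decide +kernel

theorem c_1158_1182 : allTr (chkV P V lk) tr_1158_1182 = true := by decide +kernel

theorem ck_1594 : (chkV P V lk) 0x1000000010006000100030003000040004000400040004000400040004000 = true := by decide +kernel

theorem c_881_905 : allTr (chkV P V lk) tr_881_905 = true := by decide +kernel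

theorem c_755_779 : allTr (chkV P V lk) tr_755_779 = true := by decide +kernel

theorem ck_1603 : (chkV P V lk) 0x10000000100070001000c000c000040004000400040004000400040004000 = true := by decide +kernel

theorem ck_1584 : (chkV P V lk) 0x10000000000070002002c002c000240004000400040004000400040013fff = true := by decide +kernel

theorem ck_1428 : (chkV P V lk) 0x1000700000016000b0000400040013fff40004000400040004000 = true := by decide +kernel

theorem ck_855 : (chkV P V lk) 0x30001000f0007000140004000400040014000400040003fff = true := by decide +kernel

theorem ck_1559 : (chkV P V lk) 0x1000000000007000200040004000140004000400040004000400040013fff = true := by decide +kernel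

theorem ck_1591 : (chkV P V lk) 0x1000000000007000200370037000240004000400040004000400040013fff = true := by decide +kernel

theorem ck_1497 : (chkV P V lk) 0x1000000000004000200150015000140004000400040004000400040013fff = true := by decide +kernel

theorem ck_1534 : (chkV P V lk) 0x1000000000006000200090009000140004000400040004000400040013fff = true := by decide +kernel

theorem ck_1182 : (chkV P V lk) 0x6000100050012000140014000400040003fff400040013fff = true := by decide +kernel

theorem ck_1308 : (chkV P V lk) 0x700010004003000023fff4000400040004000400140013fff = true := by decide +kernel

theorem ck_1057 : (chkV P V lk) 0x50001000900210002400040004000400140003fff40013fff = true := by decide +kernel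

theorem ck_100 : (chkV P V lk) 0xe001e00253fff4000400140014000400040013ffe = true := by decide +kernel

theorem ck_754 : (chkV P V lk) 0x100020027001d000d4001400040013fff3fff400040013fff = true := by decide +kernel

theorem ck_779 : (chkV P V lk) 0x2000000200035000340024000400040013fff3ffe40004000 = true := by decide +kernel

theorem ck_704 : (chkV P V lk) 0x200300012001640033fff3ffe3fff4000400040004001 = true := by decide +kernel

theorem ck_956 : (chkV P V lk) 0x4000100130030000a3ffe40003fff40014000400140023fff = true := by decide +kernel

theorem ck_1082 : (chkV P V lk) 0x5000100200015000440004000400040004000400140023ffd = true := by decide +kernel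

theorem ck_1006 : (chkV P V lk) 0x400020018000c000440013fff3fff40004000400040023fff = true := by decide +kernel

theorem ck_1333 : (chkV P V lk) 0x700010012002c0007400240003fff3fff4000400040023ffe = true := by decide +kernel

theorem ck_1459 : (chkV P V lk) 0x10000000000020026000a000a400140003fff3ffe4000400040024000 = true := by decide +kernel

theorem ck_804 : (chkV P V lk) 0x200010032000a000d3fff4000400040003fff3fff40024001 = true := by decide +kernel

end MPbbea99G.E8
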