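import Pool.Agent.Lib.Pbbea99G.E8.Data

/-!
# MP_bbea99_co: windows over the templates
-/

namespace MPbbea99G.E8

open MPbbea99S MPbbea99T MPbbea99G Finset

theorem o_101_151 : allTr oF tr_101_151 = true := by decide +kernel

theorem o_1284_1308 : allTr oF tr_1284_1308 = true := by decide +kernel

theorem o_1485_1488 : allTr oF tr_1485_1488 = true := by decide +kernel

theorem o_1598_1600 : allTr oF tr_1598_1600 = true := by decide +kernel

theorem o_856_862 : allTr oF tr_856_862 = true := by decide +kernel

theorem o_253_302 : allTr oF tr_253_302 = true := by decide +kernel

theorem o_1551_1553 : allTr oF tr_1551_1553 = true := by decide +kernel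

theorem o_1309_1315 : allTr oF tr_1309_1315 = true := by decide +kernel

theorem o_1582_1584 : allTr oF tr_1582_1584 = true := by decide +kernel

theorem o_1495_1497 : allTr oF tr_1495_1497 = true := by decide +kernel

theorem o_1573_1575 : allTr oF tr_1573_1575 = true := by decide +kernel

theorem o_875_880 : allTr oF tr_875_880 = true := by decide +kernel

theorem o_1517_1519 : allTr oF tr_1517_1519 = true := by decide +kernel

theorem o_51_100 : allTr oF tr_51_100 = true := by decide +kernel

theorem o_1498_1500 : allTr oF tr_1498_1500 = true := by decide +kernel

theorem ok_1594 : oF 0x1000000010006000100030003000040004000400040004000400040004000 = true := by decide +kernel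

theorem ok_1600 : oF 0x1000000010007000100090009000040004000400040004000400040004000 = true := by decide +kernel

theorem o_303_352 : allTr oF tr_303_352 = true := by decide +kernel

theorem ok_1408 : oF 0x1000500000003000100004000400040014000400040003fff4000 = true := by decide +kernel

theorem ok_1428 : oF 0x1000700000016000b0000400040013fff40004000400040004000 = true := by decide +kernel

theorem ok_1415 : oF 0x100060000000a000400003fff4000400140004000400040004000 = true := by decide +kernel

theorem ok_1559 : oF 0x1000000000007000200040004000140004000400040004000400040013fff = true := by decide +kernel

theorem ok_1497 : oF 0x1000000000004000200150015000140004000400040004000400040013fff = true := by decide +kernel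

theorem ok_1519 : oF 0x1000000000005000200250025000240004000400040004000400040013fff = true := by decide +kernel

theorem ok_1233 : oF 0x600010035002a0001400040003fff40014000400040013fff = true := by decide +kernel

theorem ok_1070 : oF 0x50001001a000d00013fff4001400040004000400040013fff = true := by decide +kernel

theorem ok_1383 : oF 0x70002000a002c0022400140003fff40004000400040023ffe = true := by decide +kernel

end MPbbea99G.E8
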