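import Pool.Agent.Lib.Pbbea99G.E8.Data

/-!
# MP_bbea99_co: windows over the templates
-/

namespace MPbbea99G.E8

open MPbbea99S MPbbea99T MPbbea99G Finset

theorem o_1585_1588 : allTr oF tr_1585_1588 = true := by decide +kernel

theorem o_1560_1563 : allTr oF tr_1560_1563 = true := by decide +kernel

theorem o_1102_1107 : allTr oF tr_1102_1107 = true := by decide +kernel

theorem o_152_201 : allTr oF tr_152_201 = true := by decide +kernel

theorem o_1595_1597 : allTr oF tr_1595_1597 = true := by decide +kernel

theorem o_970_975 : allTr oF tr_970_975 = true := by decide +kernel

theorem o_1510_1513 : allTr oF tr_1510_1513 = true := by decide +kernel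

theorem o_1489_1491 : allTr oF tr_1489_1491 = true := by decide +kernel

theorem o_1429_1431 : allTr oF tr_1429_1431 = true := by decide +kernel

theorem o_1196_1201 : allTr oF tr_1196_1201 = true := by decide +kernel

theorem o_1570_1572 : allTr oF tr_1570_1572 = true := by decide +kernel

theorem o_755_779 : allTr oF tr_755_779 = true := by decide +kernel

theorem o_1482_1484 : allTr oF tr_1482_1484 = true := by decide +kernel

theorem o_1526_1528 : allTr oF tr_1526_1528 = true := by decide +kernel

theorem ok_1475 : oF 0x1000000010001000600020002400040003fff40004000400040014000 = true := by decide +kernel

theorem ok_1569 : oF 0x1000000000007000200130013000240004000400040004000400040013fff = true := by decide +kernel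

theorem ok_1528 : oF 0x10000000000050002002c002c000240004000400040004000400040013fff = true := by decide +kernel

theorem ok_1509 : oF 0x10000000000050002000e000e000240004000400040004000400040013fff = true := by decide +kernel

theorem ok_1516 : oF 0x1000000000005000200230023000140004000400040004000400040013fff = true := by decide +kernel

theorem ok_1500 : oF 0x1000000000004000200180018000240004000400040004000400040013fff = true := by decide +kernel

theorem ok_1591 : oF 0x1000000000007000200370037000240004000400040004000400040013fff = true := by decide +kernel

theorem ok_855 : oF 0x30001000f0007000140004000400040014000400040003fff = true := by decide +kernel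

theorem ok_1484 : oF 0x1000000000003000200090009000140004000400040004000400040013fff = true := by decide +kernel

theorem ok_1581 : oF 0x10000000000070002002b002b000140004000400040004000400040013fff = true := by decide +kernel

theorem ok_1563 : oF 0x1000000000007000200070007000240004000400040004000400040013fff = true := by decide +kernel

theorem ok_1095 : oF 0x5000100300020000140004000400040003fff400140013fff = true := by decide +kernel

theorem ok_1157 : oF 0x60000000e000200013fff40003fff40004000400040014001 = true := by decide +kernel

theorem ok_302 : oF 0x10008000600223ffe40013fff40004000400140014000 = true := by decide +kernel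

theorem ok_1082 : oF 0x5000100200015000440004000400040004000400140023ffd = true := by decide +kernel

theorem ok_931 : oF 0x400000026000e000540003fff40013fff3fff400040014001 = true := by decide +kernel

theorem ok_956 : oF 0x4000100130030000a3ffe40003fff40014000400140023fff = true := by decide +kernel

theorem ok_975 : oF 0x400010027000c000340023fff3fff400040003fff40023fff = true := by decide +kernel

theorem ok_1207 : oF 0x6000100180037000540013ffe400140004000400040023ffe = true := by decide +kernel

end MPbbea99G.E8
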