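import Pool.Agent.Lib.Pbbea99G.E8.Data

/-!
# MP_bbea99_co: windows over the templates
-/

namespace MPbbea99G.E8

open MPbbea99S MPbbea99T MPbbea99G Finset

theorem o_1359_1383 : allTr oF tr_1359_1383 = true := by decide +kernel

theorem o_869_874 : allTr oF tr_869_874 = true := by decide +kernel

theorem o_1422_1425 : allTr oF tr_1422_1425 = true := by decide +kernel

theorem o_1535_1538 : allTr oF tr_1535_1538 = true := by decide +kernel

theorem o_982_1006 : allTr oF tr_982_1006 = true := by decide +kernel

theorem o_1183_1189 : allTr oF tr_1183_1189 = true := by decide +kernel

theorem o_1071_1076 : allTr oF tr_1071_1076 = true := by decide +kernel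

theorem o_1221_1233 : allTr oF tr_1221_1233 = true := by decide +kernel

theorem o_1473_1475 : allTr oF tr_1473_1475 = true := by decide +kernel

theorem o_1419_1421 : allTr oF tr_1419_1421 = true := by decide +kernel

theorem o_1007_1032 : allTr oF tr_1007_1032 = true := by decide +kernel

theorem o_793_804 : allTr oF tr_793_804 = true := by decide +kernel

theorem o_1529_1531 : allTr oF tr_1529_1531 = true := by decide +kernel

theorem o_1567_1569 : allTr oF tr_1567_1569 = true := by decide +kernel

theorem o_1435_1459 : allTr oF tr_1435_1459 = true := by decide +kernel

theorem ok_1588 : oF 0x1000000000007000200350035000140004000400040004000400040013fff = true := by decide +kernel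

theorem ok_1584 : oF 0x10000000000070002002c002c000240004000400040004000400040013fff = true := by decide +kernel

theorem ok_1421 : oF 0x100070000000f000700004000400040004001400040003fff4000 = true := by decide +kernel

theorem ok_1412 : oF 0x1000600000007000300004001400040004000400040003fff4000 = true := by decide +kernel

theorem ok_1513 : oF 0x1000000000005000200210021000140004000400040004000400040013fff = true := by decide +kernel

theorem ok_969 : oF 0x4000100230012000140014000400040003fff400040013fff = true := by decide +kernel

theorem ok_1182 : oF 0x6000100050012000140014000400040003fff400040013fff = true := by decide +kernel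

theorem ok_1538 : oF 0x1000000000006000200120012000140004000400040004000400040013fff = true := by decide +kernel

theorem ok_1195 : oF 0x600010012000800024001400040003fff4000400040013fff = true := by decide +kernel

theorem ok_1315 : oF 0x700010009000400013fff4000400140004000400040013fff = true := by decide +kernel

theorem ok_792 : oF 0x20001000c00050002400140003fff40004000400040013fff = true := by decide +kernel

theorem ok_50 : oF 0x90005000b400040003ffe3fff4001400140004001 = true := by decide +kernel

theorem ok_402 : oF 0x1001a000d002e40023fff3fff400140013fff40003fff = true := by decide +kernel

theorem ok_880 : oF 0x30001001c0018000540003ffe400140004000400140013fff = true := by decide +kernel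

theorem ok_1333 : oF 0x700010012002c0007400240003fff3fff4000400040023ffe = true := by decide +kernel

theorem ok_944 : oF 0x40001000500200004400140003fff40003ffe400140023fff = true := by decide +kernel

theorem ok_252 : oF 0x32003100163fff3fff4001400040003fff40024000 = true := by decide +kernel

theorem ok_1258 : oF 0x60002001c000e000340003fff3fff40004000400040024000 = true := by decide +kernel

end MPbbea99G.E8
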