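import Pool.Agent.Lib.Pbbea99G.E8.Data

/-!
# MP_bbea99_co: windows over the templates
-/

namespace MPbbea99G.E8

open MPbbea99S MPbbea99T MPbbea99G Finset

theorem o_945_956 : allTr oF tr_945_956 = true := by decide +kernel

theorem o_1409_1412 : allTr oF tr_1409_1412 = true := by decide +kernel

theorem o_1607_1609 : allTr oF tr_1607_1609 = true := by decide +kernel

theorem o_1592_1594 : allTr oF tr_1592_1594 = true := by decide +kernel

theorem o_1334_1340 : allTr oF tr_1334_1340 = true := by decide +kernel

theorem o_1316_1321 : allTr oF tr_1316_1321 = true := by decide +kernel

theorem o_1328_1333 : allTr oF tr_1328_1333 = true := by decide +kernel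

theorem o_1322_1327 : allTr oF tr_1322_1327 = true := by decide +kernel

theorem o_1108_1157 : allTr oF tr_1108_1157 = true := by decide +kernel

theorem o_863_868 : allTr oF tr_863_868 = true := by decide +kernel

theorem o_1416_1418 : allTr oF tr_1416_1418 = true := by decide +kernel

theorem o_1501_1503 : allTr oF tr_1501_1503 = true := by decide +kernel

theorem o_1554_1556 : allTr oF tr_1554_1556 = true := by decide +kernel

theorem o_1479_1481 : allTr oF tr_1479_1481 = true := by decide +kernel

theorem o_1579_1581 : allTr oF tr_1579_1581 = true := by decide +kernel

theorem o_1083_1095 : allTr oF tr_1083_1095 = true := by decide +kernel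

theorem ok_1603 : oF 0x10000000100070001000c000c000040004000400040004000400040004000 = true := by decide +kernel

theorem ok_1434 : oF 0x100070000001c000e000040003fff400040004000400040004001 = true := by decide +kernel

theorem ok_1418 : oF 0x100060000000d000600003fff4000400040004000400040004001 = true := by decide +kernel

theorem ok_1506 : oF 0x10000000000050002000a000a000140004000400040004000400040013fff = true := by decide +kernel

theorem o_1384_1408 : allTr oF tr_1384_1408 = true := by decide +kernel

theorem ok_1544 : oF 0x10000000000060002001d001d000140004000400040004000400040013fff = true := by decide +kernel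

theorem o_881_905 : allTr oF tr_881_905 = true := by decide +kernel

theorem ok_1547 : oF 0x1000000000006000200200020000240004000400040004000400040013fff = true := by decide +kernel

theorem ok_1189 : oF 0x60001000f0007000240004000400040014000400040003fff = true := by decide +kernel

theorem ok_1220 : oF 0x60001002b00170001400040014000400040003fff40013fff = true := by decide +kernel

theorem ok_754 : oF 0x100020027001d000d4001400040013fff3fff400040013fff = true := by decide +kernel

theorem ok_1346 : oF 0x70001002300150003400040004001400040003fff40023ffe = true := by decide +kernel

theorem ok_874 : oF 0x3000100190037000540013ffe400140004000400040023ffe = true := by decide +kernel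

theorem ok_201 : oF 0x240020001040003fff40013fff3fff400140014000 = true := by decide +kernel

theorem ok_868 : oF 0x30001001700290003400040004000400040013ffe40023fff = true := by decide +kernel

theorem ok_151 : oF 0x19000a00173ffe400040003fff40013fff40024001 = true := by decide +kernel

theorem ok_1283 : oF 0x700000015001100024000400040013ffe4001400040013fff = true := by decide +kernel

end MPbbea99G.E8
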