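import Pool.Agent.Lib.Pbbea99G.E8.Data

/-!
# MP_bbea99_co: windows over the templates
-/

namespace MPbbea99G.E8

open MPbbea99S MPbbea99T MPbbea99G Finset

theorem o_1347_1358 : allTr oF tr_1347_1358 = true := by decide +kernel

theorem o_504_603 : allTr oF tr_504_603 = true := by decide +kernel

theorem o_1234_1258 : allTr oF tr_1234_1258 = true := by decide +kernel

theorem o_1058_1070 : allTr oF tr_1058_1070 = true := by decide +kernel

theorem o_1190_1195 : allTr oF tr_1190_1195 = true := by decide +kernel

theorem o_957_969 : allTr oF tr_957_969 = true := by decide +kernel

theorem o_1158_1182 : allTr oF tr_1158_1182 = true := by decide +kernel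

theorem o_1564_1566 : allTr oF tr_1564_1566 = true := by decide +kernel

theorem o_1077_1082 : allTr oF tr_1077_1082 = true := by decide +kernel

theorem o_1542_1544 : allTr oF tr_1542_1544 = true := by decide +kernel

theorem o_1341_1346 : allTr oF tr_1341_1346 = true := by decide +kernel

theorem o_1432_1434 : allTr oF tr_1432_1434 = true := by decide +kernel

theorem o_1545_1547 : allTr oF tr_1545_1547 = true := by decide +kernel

theorem o_1492_1494 : allTr oF tr_1492_1494 = true := by decide +kernel

theorem o_1576_1578 : allTr oF tr_1576_1578 = true := by decide +kernel

theorem ok_1597 : oF 0x1000000010006000100060006000040004000400040004000400040004000 = true := by decide +kernel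

theorem o_932_944 : allTr oF tr_932_944 = true := by decide +kernel

theorem ok_1525 : oF 0x1000000000005000200280028000240004000400040004000400040013fff = true := by decide +kernel

theorem ok_1503 : oF 0x10000000000040002001b001b000240004000400040004000400040013fff = true := by decide +kernel

theorem ok_1478 : oF 0x1000000000002000200030003000140004000400040004000400040013fff = true := by decide +kernel

theorem ok_1575 : oF 0x10000000000070002001a001a000140004000400040004000400040013fff = true := by decide +kernel

theorem ok_1553 : oF 0x1000000000006000200320032000140004000400040004000400040013fff = true := by decide +kernel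

theorem ok_1566 : oF 0x1000000000007000200100010000140004000400040004000400040013fff = true := by decide +kernel

theorem ok_1425 : oF 0x1000700000013000900003fff4000400040014000400040004000 = true := by decide +kernel

theorem ok_1057 : oF 0x50001000900210002400040004000400140003fff40013fff = true := by decide +kernel

theorem ok_862 : oF 0x300010013000900013fff4000400040014000400040013fff = true := by decide +kernel

theorem ok_352 : oF 0x1000e001e002a3fff4001400140004000400040013ffe = true := by decide +kernel

theorem ok_1201 : oF 0x600010014002000103fff40003fff40003fff400240023fff = true := by decide +kernel

theorem ok_1032 : oF 0x500000017000f0002400040004000400040023fff40003fff = true := by decide +kernel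

theorem ok_779 : oF 0x2000000200035000340024000400040013fff3ffe40004000 = true := by decide +kernel

theorem ok_1459 : oF 0x10000000000020026000a000a400140003fff3ffe4000400040024000 = true := by decide +kernel

theorem ok_804 : oF 0x200010032000a000d3fff4000400040003fff3fff40024001 = true := by decide +kernel

theorem ok_1107 : oF 0x500010036001b000540004001400140003ffe400040023ffe = true := by decide +kernel

end MPbbea99G.E8
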