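import Pool.Agent.Lib.Pbbea99G.E8.Data

/-!
# MP_bbea99_co: windows over the templates
-/

namespace MPbbea99G.E8

open MPbbea99S MPbbea99T MPbbea99G Finset

theorem o_780_792 : allTr oF tr_780_792 = true := by decide +kernel

theorem o_604_704 : allTr oF tr_604_704 = true := by decide +kernel

theorem o_202_252 : allTr oF tr_202_252 = true := by decide +kernel

theorem o_1601_1603 : allTr oF tr_1601_1603 = true := by decide +kernel

theorem o_353_402 : allTr oF tr_353_402 = true := by decide +kernel

theorem o_0_25 : allTr oF tr_0_25 = true := by decide +kernel

theorem o_1557_1559 : allTr oF tr_1557_1559 = true := by decide +kernel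

theorem o_26_50 : allTr oF tr_26_50 = true := by decide +kernel

theorem o_1202_1207 : allTr oF tr_1202_1207 = true := by decide +kernel

theorem o_1208_1220 : allTr oF tr_1208_1220 = true := by decide +kernel

theorem o_1460_1472 : allTr oF tr_1460_1472 = true := by decide +kernel

theorem o_1514_1516 : allTr oF tr_1514_1516 = true := by decide +kernel

theorem o_1507_1509 : allTr oF tr_1507_1509 = true := by decide +kernel

theorem o_1259_1283 : allTr oF tr_1259_1283 = true := by decide +kernel

theorem o_1504_1506 : allTr oF tr_1504_1506 = true := by decide +kernel

theorem ok_1522 : oF 0x1000000000005000200270027000140004000400040004000400040013fff = true := by decide +kernel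

theorem o_1096_1101 : allTr oF tr_1096_1101 = true := by decide +kernel

theorem ok_1491 : oF 0x10000000000040002000f000f000140004000400040004000400040013fff = true := by decide +kernel

theorem ok_1578 : oF 0x1000000000007000200280028000140004000400040004000400040013fff = true := by decide +kernel

theorem ok_1327 : oF 0x70001000e000600023fff4000400040004000400040014000 = true := by decide +kernel

theorem ok_1550 : oF 0x1000000000006000200300030000140004000400040004000400040013fff = true := by decide +kernel

theorem ok_1531 : oF 0x1000000000006000200020002000140004000400040004000400040013fff = true := by decide +kernel

theorem ok_1488 : oF 0x10000000000030002000d000d000240004000400040004000400040013fff = true := by decide +kernel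

theorem ok_1534 : oF 0x1000000000006000200090009000140004000400040004000400040013fff = true := by decide +kernel

theorem ok_1308 : oF 0x700010004003000023fff4000400040004000400140013fff = true := by decide +kernel

theorem ok_1340 : oF 0x7000100200010000140004000400040013fff400040013fff = true := by decide +kernel

theorem ok_100 : oF 0xe001e00253fff4000400140014000400040013ffe = true := by decide +kernel

theorem ok_1358 : oF 0x70001002900270006400040004001400040003ffe40023fff = true := by decide +kernel

theorem ok_905 : oF 0x300020018001a00103ffe40003fff3fff4002400140023fff = true := by decide +kernel

theorem ok_1076 : oF 0x50001001c0018000440003ffe3fff40004000400140024000 = true := by decide +kernel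

end MPbbea99G.E8
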