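import Pool.Agent.Lib.Pbbea99G.E8.Data

/-!
# MP_bbea99_co: windows over the templates
-/

namespace MPbbea99G.E8

open MPbbea99S MPbbea99T MPbbea99G Finset

theorem o_403_503 : allTr oF tr_403_503 = true := by decide +kernel

theorem o_805_855 : allTr oF tr_805_855 = true := by decide +kernel

theorem o_1033_1057 : allTr oF tr_1033_1057 = true := by decide +kernel

theorem o_1476_1478 : allTr oF tr_1476_1478 = true := by decide +kernel

theorem o_1604_1606 : allTr oF tr_1604_1606 = true := by decide +kernel

theorem o_976_981 : allTr oF tr_976_981 = true := by decide +kernel

theorem o_1523_1525 : allTr oF tr_1523_1525 = true := by decide +kernel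

theorem o_1589_1591 : allTr oF tr_1589_1591 = true := by decide +kernel

theorem o_1548_1550 : allTr oF tr_1548_1550 = true := by decide +kernel

theorem o_1413_1415 : allTr oF tr_1413_1415 = true := by decide +kernel

theorem o_1426_1428 : allTr oF tr_1426_1428 = true := by decide +kernel

theorem o_1520_1522 : allTr oF tr_1520_1522 = true := by decide +kernel

theorem o_906_931 : allTr oF tr_906_931 = true := by decide +kernel

theorem o_1539_1541 : allTr oF tr_1539_1541 = true := by decide +kernel

theorem o_1532_1534 : allTr oF tr_1532_1534 = true := by decide +kernel

theorem o_705_754 : allTr oF tr_705_754 = true := by decide +kernel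

theorem ok_1481 : oF 0x1000000000002000200060006000240004000400040004000400040013fff = true := by decide +kernel

theorem ok_1606 : oF 0x1000100000001000200010001000140004000400040004000400040013fff = true := by decide +kernel

theorem ok_1431 : oF 0x1000700000019000c000040013fff400040004000400040004000 = true := by decide +kernel

theorem ok_1556 : oF 0x1000000000006000200340034000140004000400040004000400040013fff = true := by decide +kernel

theorem ok_1541 : oF 0x10000000000060002001a001a000140004000400040004000400040013fff = true := by decide +kernel

theorem ok_1472 : oF 0x100000001000100030001000140004000400140004000400040003fff = true := by decide +kernel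

theorem ok_1494 : oF 0x1000000000004000200120012000140004000400040004000400040013fff = true := by decide +kernel

theorem ok_1572 : oF 0x1000000000007000200170017000140004000400040004000400040013fff = true := by decide +kernel

theorem ok_1101 : oF 0x5000100320025000140003fff400040014000400040013fff = true := by decide +kernel

theorem ok_981 : oF 0x4000100280018000240003fff400040004000400140013fff = true := by decide +kernel

theorem ok_603 : oF 0x20014000a00044000400040003fff4000400040023fff = true := by decide +kernel

theorem ok_503 : oF 0x100310009000a3fff3fff4000400240013fff40013fff = true := by decide +kernel

theorem ok_1321 : oF 0x70001000c0016002f3fff3fff400040014001400140003fff = true := by decide +kernel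

theorem ok_704 : oF 0x200300012001640033fff3ffe3fff4000400040004001 = true := by decide +kernel

theorem ok_25 : oF 0x4001d001b400140003ffe3fff3fff400140024000 = true := by decide +kernel

theorem ok_1006 : oF 0x400020018000c000440013fff3fff40004000400040023fff = true := by decide +kernel

end MPbbea99G.E8
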