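import Pool.Agent.Lib.Pbbea99G.E8.Hyp
import Pool.Agent.Lib.Pbbea99G.E8.Out
import Pool.Agent.Lib.Pbbea99G.E8.C00
import Pool.Agent.Lib.Pbbea99G.E8.C01
import Pool.Agent.Lib.Pbbea99G.E8.O00
import Pool.Agent.Lib.Pbbea99G.E8.O01
import Pool.Agent.Lib.Pbbea99G.E8.O02
import Pool.Agent.Lib.Pbbea99G.E8.O03
import Pool.Agent.Lib.Pbbea99G.E8.O04
import Pool.Agent.Lib.Pbbea99G.E8.O05
import Pool.Agent.Lib.Pbbea99G.E8.O06

/-!
# MP_bbea99_co: the word on 8 letters
-/

namespace MPbbea99G.E8

open MPbbea99S MPbbea99T MPbbea99G Finset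

theorem c_1607_1609 : allTr (chkV P V lk) tr_1607_1609 = true := allTr_mk ck_1608 c_1607_1608 rfl

theorem c_1473_1478 : allTr (chkV P V lk) tr_1473_1478 = true := allTr_mk ck_1475 c_1473_1475 c_1476_1478

theorem c_1592_1597 : allTr (chkV P V lk) tr_1592_1597 = true := allTr_mk ck_1594 c_1592_1594 c_1595_1597

theorem c_1604_1609 : allTr (chkV P V lk) tr_1604_1609 = true := allTr_mk ck_1606 c_1604_1606 c_1607_1609

theorem c_1473_1484 : allTr (chkV P V lk) tr_1473_1484 = true := allTr_mk ck_1478 c_1473_1478 c_1479_1484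

theorem c_1598_1609 : allTr (chkV P V lk) tr_1598_1609 = true := allTr_mk ck_1603 c_1598_1603 c_1604_1609

theorem c_1409_1421 : allTr (chkV P V lk) tr_1409_1421 = true := allTr_mk ck_1415 c_1409_1415 c_1416_1421

theorem c_1422_1434 : allTr (chkV P V lk) tr_1422_1434 = true := allTr_mk ck_1428 c_1422_1428 c_1429_1434

theorem c_1585_1597 : allTr (chkV P V lk) tr_1585_1597 = true := allTr_mk ck_1591 c_1585_1591 c_1592_1597

theorem c_780_804 : allTr (chkV P V lk) tr_780_804 = true := allTr_mk ck_792 c_780_792 c_793_804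

theorem c_1460_1484 : allTr (chkV P V lk) tr_1460_1484 = true := allTr_mk ck_1472 c_1460_1472 c_1473_1484

theorem c_1485_1509 : allTr (chkV P V lk) tr_1485_1509 = true := allTr_mk ck_1497 c_1485_1497 c_1498_1509

theorem c_1510_1534 : allTr (chkV P V lk) tr_1510_1534 = true := allTr_mk ck_1522 c_1510_1522 c_1523_1534

theorem c_1535_1559 : allTr (chkV P V lk) tr_1535_1559 = true := allTr_mk ck_1547 c_1535_1547 c_1548_1559

theorem c_1560_1584 : allTr (chkV P V lk) tr_1560_1584 = true := allTr_mk ck_1572 c_1560_1572 c_1573_1584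

theorem c_1585_1609 : allTr (chkV P V lk) tr_1585_1609 = true := allTr_mk ck_1597 c_1585_1597 c_1598_1609

theorem c_1409_1434 : allTr (chkV P V lk) tr_1409_1434 = true := allTr_mk ck_1421 c_1409_1421 c_1422_1434

theorem c_755_804 : allTr (chkV P V lk) tr_755_804 = true := allTr_mk ck_779 c_755_779 c_780_804

theorem c_856_905 : allTr (chkV P V lk) tr_856_905 = true := allTr_mk ck_880 c_856_880 c_881_905

theorem c_957_1006 : allTr (chkV P V lk) tr_957_1006 = true := allTr_mk ck_981 c_957_981 c_982_1006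

theorem c_1058_1107 : allTr (chkV P V lk) tr_1058_1107 = true := allTr_mk ck_1082 c_1058_1082 c_1083_1107

theorem c_1158_1207 : allTr (chkV P V lk) tr_1158_1207 = true := allTr_mk ck_1182 c_1158_1182 c_1183_1207

theorem c_1309_1358 : allTr (chkV P V lk) tr_1309_1358 = true := allTr_mk ck_1333 c_1309_1333 c_1334_1358

theorem c_1460_1509 : allTr (chkV P V lk) tr_1460_1509 = true := allTr_mk ck_1484 c_1460_1484 c_1485_1509

theorem c_1510_1559 : allTr (chkV P V lk) tr_1510_1559 = true := allTr_mk ck_1534 c_1510_1534 c_1535_1559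

theorem c_1560_1609 : allTr (chkV P V lk) tr_1560_1609 = true := allTr_mk ck_1584 c_1560_1584 c_1585_1609

theorem c_1409_1459 : allTr (chkV P V lk) tr_1409_1459 = true := allTr_mk ck_1434 c_1409_1434 c_1435_1459

theorem c_705_804 : allTr (chkV P V lk) tr_705_804 = true := allTr_mk ck_754 c_705_754 c_755_804

theorem c_1108_1207 : allTr (chkV P V lk) tr_1108_1207 = true := allTr_mk ck_1157 c_1108_1157 c_1158_1207

theorem c_1309_1408 : allTr (chkV P V lk) tr_1309_1408 = true := allTr_mk ck_1358 c_1309_1358 c_1359_1408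

theorem c_1510_1609 : allTr (chkV P V lk) tr_1510_1609 = true := allTr_mk ck_1559 c_1510_1559 c_1560_1609

theorem c_805_905 : allTr (chkV P V lk) tr_805_905 = true := allTr_mk ck_855 c_805_855 c_856_905

theorem c_906_1006 : allTr (chkV P V lk) tr_906_1006 = true := allTr_mk ck_956 c_906_956 c_957_1006

theorem c_1007_1107 : allTr (chkV P V lk) tr_1007_1107 = true := allTr_mk ck_1057 c_1007_1057 c_1058_1107

theorem c_1208_1308 : allTr (chkV P V lk) tr_1208_1308 = true := allTr_mk ck_1258 c_1208_1258 c_1259_1308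

theorem c_1409_1509 : allTr (chkV P V lk) tr_1409_1509 = true := allTr_mk ck_1459 c_1409_1459 c_1460_1509

theorem c_604_804 : allTr (chkV P V lk) tr_604_804 = true := allTr_mk ck_704 c_604_704 c_705_804

theorem c_1007_1207 : allTr (chkV P V lk) tr_1007_1207 = true := allTr_mk ck_1107 c_1007_1107 c_1108_1207

theorem c_1208_1408 : allTr (chkV P V lk) tr_1208_1408 = true := allTr_mk ck_1308 c_1208_1308 c_1309_1408

theorem c_1409_1609 : allTr (chkV P V lk) tr_1409_1609 = true := allTr_mk ck_1509 c_1409_1509 c_1510_1609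

theorem c_0_201 : allTr (chkV P V lk) tr_0_201 = true := allTr_mk ck_100 c_0_100 c_101_201

theorem c_805_1006 : allTr (chkV P V lk) tr_805_1006 = true := allTr_mk ck_905 c_805_905 c_906_1006

theorem c_403_804 : allTr (chkV P V lk) tr_403_804 = true := allTr_mk ck_603 c_403_603 c_604_804

theorem c_1208_1609 : allTr (chkV P V lk) tr_1208_1609 = true := allTr_mk ck_1408 c_1208_1408 c_1409_1609

theorem c_0_402 : allTr (chkV P V lk) tr_0_402 = true := allTr_mk ck_201 c_0_201 c_202_402

theorem c_805_1207 : allTr (chkV P V lk) tr_805_1207 = true := allTr_mk ck_1006 c_805_1006 c_1007_1207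

theorem c_0_804 : allTr (chkV P V lk) tr_0_804 = true := allTr_mk ck_402 c_0_402 c_403_804

theorem c_805_1609 : allTr (chkV P V lk) tr_805_1609 = true := allTr_mk ck_1207 c_805_1207 c_1208_1609

theorem c_0_1609 : allTr (chkV P V lk) tr_0_1609 = true := allTr_mk ck_804 c_0_804 c_805_1609

theorem o_1416_1421 : allTr oF tr_1416_1421 = true := allTr_mk ok_1418 o_1416_1418 o_1419_1421

theorem o_1429_1434 : allTr oF tr_1429_1434 = true := allTr_mk ok_1431 o_1429_1431 o_1432_1434

theorem o_1473_1478 : allTr oF tr_1473_1478 = true := allTr_mk ok_1475 o_1473_1475 o_1476_1478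

theorem o_1479_1484 : allTr oF tr_1479_1484 = true := allTr_mk ok_1481 o_1479_1481 o_1482_1484

theorem o_1492_1497 : allTr oF tr_1492_1497 = true := allTr_mk ok_1494 o_1492_1494 o_1495_1497

theorem o_1498_1503 : allTr oF tr_1498_1503 = true := allTr_mk ok_1500 o_1498_1500 o_1501_1503

theorem o_1504_1509 : allTr oF tr_1504_1509 = true := allTr_mk ok_1506 o_1504_1506 o_1507_1509

theorem o_1517_1522 : allTr oF tr_1517_1522 = true := allTr_mk ok_1519 o_1517_1519 o_1520_1522

theorem o_1523_1528 : allTr oF tr_1523_1528 = true := allTr_mk ok_1525 o_1523_1525 o_1526_1528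

theorem o_1529_1534 : allTr oF tr_1529_1534 = true := allTr_mk ok_1531 o_1529_1531 o_1532_1534

theorem o_1542_1547 : allTr oF tr_1542_1547 = true := allTr_mk ok_1544 o_1542_1544 o_1545_1547

theorem o_1548_1553 : allTr oF tr_1548_1553 = true := allTr_mk ok_1550 o_1548_1550 o_1551_1553

theorem o_1554_1559 : allTr oF tr_1554_1559 = true := allTr_mk ok_1556 o_1554_1556 o_1557_1559

theorem o_1567_1572 : allTr oF tr_1567_1572 = true := allTr_mk ok_1569 o_1567_1569 o_1570_1572

theorem o_1573_1578 : allTr oF tr_1573_1578 = true := allTr_mk ok_1575 o_1573_1575 o_1576_1578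

theorem o_1579_1584 : allTr oF tr_1579_1584 = true := allTr_mk ok_1581 o_1579_1581 o_1582_1584

theorem o_1592_1597 : allTr oF tr_1592_1597 = true := allTr_mk ok_1594 o_1592_1594 o_1595_1597

theorem o_1598_1603 : allTr oF tr_1598_1603 = true := allTr_mk ok_1600 o_1598_1600 o_1601_1603

theorem o_1604_1609 : allTr oF tr_1604_1609 = true := allTr_mk ok_1606 o_1604_1606 o_1607_1609

theorem o_1409_1415 : allTr oF tr_1409_1415 = true := allTr_mk ok_1412 o_1409_1412 o_1413_1415

theorem o_1422_1428 : allTr oF tr_1422_1428 = true := allTr_mk ok_1425 o_1422_1425 o_1426_1428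

theorem o_1485_1491 : allTr oF tr_1485_1491 = true := allTr_mk ok_1488 o_1485_1488 o_1489_1491

theorem o_1510_1516 : allTr oF tr_1510_1516 = true := allTr_mk ok_1513 o_1510_1513 o_1514_1516

theorem o_1535_1541 : allTr oF tr_1535_1541 = true := allTr_mk ok_1538 o_1535_1538 o_1539_1541

theorem o_1560_1566 : allTr oF tr_1560_1566 = true := allTr_mk ok_1563 o_1560_1563 o_1564_1566

theorem o_1585_1591 : allTr oF tr_1585_1591 = true := allTr_mk ok_1588 o_1585_1588 o_1589_1591

theorem o_869_880 : allTr oF tr_869_880 = true := allTr_mk ok_874 o_869_874 o_875_880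

theorem o_970_981 : allTr oF tr_970_981 = true := allTr_mk ok_975 o_970_975 o_976_981

theorem o_1071_1082 : allTr oF tr_1071_1082 = true := allTr_mk ok_1076 o_1071_1076 o_1077_1082

theorem o_1096_1107 : allTr oF tr_1096_1107 = true := allTr_mk ok_1101 o_1096_1101 o_1102_1107

theorem o_1196_1207 : allTr oF tr_1196_1207 = true := allTr_mk ok_1201 o_1196_1201 o_1202_1207

theorem o_1322_1333 : allTr oF tr_1322_1333 = true := allTr_mk ok_1327 o_1322_1327 o_1328_1333

theorem o_1473_1484 : allTr oF tr_1473_1484 = true := allTr_mk ok_1478 o_1473_1478 o_1479_1484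

theorem o_1498_1509 : allTr oF tr_1498_1509 = true := allTr_mk ok_1503 o_1498_1503 o_1504_1509

theorem o_1523_1534 : allTr oF tr_1523_1534 = true := allTr_mk ok_1528 o_1523_1528 o_1529_1534

theorem o_1548_1559 : allTr oF tr_1548_1559 = true := allTr_mk ok_1553 o_1548_1553 o_1554_1559

theorem o_1573_1584 : allTr oF tr_1573_1584 = true := allTr_mk ok_1578 o_1573_1578 o_1579_1584

theorem o_1598_1609 : allTr oF tr_1598_1609 = true := allTr_mk ok_1603 o_1598_1603 o_1604_1609

theorem o_856_868 : allTr oF tr_856_868 = true := allTr_mk ok_862 o_856_862 o_863_868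

theorem o_1183_1195 : allTr oF tr_1183_1195 = true := allTr_mk ok_1189 o_1183_1189 o_1190_1195

theorem o_1309_1321 : allTr oF tr_1309_1321 = true := allTr_mk ok_1315 o_1309_1315 o_1316_1321

theorem o_1334_1346 : allTr oF tr_1334_1346 = true := allTr_mk ok_1340 o_1334_1340 o_1341_1346

theorem o_1409_1421 : allTr oF tr_1409_1421 = true := allTr_mk ok_1415 o_1409_1415 o_1416_1421

theorem o_1422_1434 : allTr oF tr_1422_1434 = true := allTr_mk ok_1428 o_1422_1428 o_1429_1434

theorem o_1485_1497 : allTr oF tr_1485_1497 = true := allTr_mk ok_1491 o_1485_1491 o_1492_1497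

theorem o_1510_1522 : allTr oF tr_1510_1522 = true := allTr_mk ok_1516 o_1510_1516 o_1517_1522

theorem o_1535_1547 : allTr oF tr_1535_1547 = true := allTr_mk ok_1541 o_1535_1541 o_1542_1547

theorem o_1560_1572 : allTr oF tr_1560_1572 = true := allTr_mk ok_1566 o_1560_1566 o_1567_1572

theorem o_1585_1597 : allTr oF tr_1585_1597 = true := allTr_mk ok_1591 o_1585_1591 o_1592_1597

theorem o_780_804 : allTr oF tr_780_804 = true := allTr_mk ok_792 o_780_792 o_793_804

theorem o_856_880 : allTr oF tr_856_880 = true := allTr_mk ok_868 o_856_868 o_869_880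

theorem o_932_956 : allTr oF tr_932_956 = true := allTr_mk ok_944 o_932_944 o_945_956

theorem o_957_981 : allTr oF tr_957_981 = true := allTr_mk ok_969 o_957_969 o_970_981

theorem o_1058_1082 : allTr oF tr_1058_1082 = true := allTr_mk ok_1070 o_1058_1070 o_1071_1082

theorem o_1083_1107 : allTr oF tr_1083_1107 = true := allTr_mk ok_1095 o_1083_1095 o_1096_1107

theorem o_1183_1207 : allTr oF tr_1183_1207 = true := allTr_mk ok_1195 o_1183_1195 o_1196_1207

theorem o_1309_1333 : allTr oF tr_1309_1333 = true := allTr_mk ok_1321 o_1309_1321 o_1322_1333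

theorem o_1334_1358 : allTr oF tr_1334_1358 = true := allTr_mk ok_1346 o_1334_1346 o_1347_1358

theorem o_1460_1484 : allTr oF tr_1460_1484 = true := allTr_mk ok_1472 o_1460_1472 o_1473_1484

theorem o_1485_1509 : allTr oF tr_1485_1509 = true := allTr_mk ok_1497 o_1485_1497 o_1498_1509

theorem o_1510_1534 : allTr oF tr_1510_1534 = true := allTr_mk ok_1522 o_1510_1522 o_1523_1534

theorem o_1535_1559 : allTr oF tr_1535_1559 = true := allTr_mk ok_1547 o_1535_1547 o_1548_1559

theorem o_1560_1584 : allTr oF tr_1560_1584 = true := allTr_mk ok_1572 o_1560_1572 o_1573_1584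

theorem o_1585_1609 : allTr oF tr_1585_1609 = true := allTr_mk ok_1597 o_1585_1597 o_1598_1609

theorem o_1208_1233 : allTr oF tr_1208_1233 = true := allTr_mk ok_1220 o_1208_1220 o_1221_1233

theorem o_1409_1434 : allTr oF tr_1409_1434 = true := allTr_mk ok_1421 o_1409_1421 o_1422_1434

theorem o_755_804 : allTr oF tr_755_804 = true := allTr_mk ok_779 o_755_779 o_780_804

theorem o_856_905 : allTr oF tr_856_905 = true := allTr_mk ok_880 o_856_880 o_881_905

theorem o_957_1006 : allTr oF tr_957_1006 = true := allTr_mk ok_981 o_957_981 o_982_1006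

theorem o_1058_1107 : allTr oF tr_1058_1107 = true := allTr_mk ok_1082 o_1058_1082 o_1083_1107

theorem o_1158_1207 : allTr oF tr_1158_1207 = true := allTr_mk ok_1182 o_1158_1182 o_1183_1207

theorem o_1259_1308 : allTr oF tr_1259_1308 = true := allTr_mk ok_1283 o_1259_1283 o_1284_1308

theorem o_1309_1358 : allTr oF tr_1309_1358 = true := allTr_mk ok_1333 o_1309_1333 o_1334_1358

theorem o_1359_1408 : allTr oF tr_1359_1408 = true := allTr_mk ok_1383 o_1359_1383 o_1384_1408

theorem o_1460_1509 : allTr oF tr_1460_1509 = true := allTr_mk ok_1484 o_1460_1484 o_1485_1509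

theorem o_1510_1559 : allTr oF tr_1510_1559 = true := allTr_mk ok_1534 o_1510_1534 o_1535_1559

theorem o_1560_1609 : allTr oF tr_1560_1609 = true := allTr_mk ok_1584 o_1560_1584 o_1585_1609

theorem o_0_50 : allTr oF tr_0_50 = true := allTr_mk ok_25 o_0_25 o_26_50

theorem o_906_956 : allTr oF tr_906_956 = true := allTr_mk ok_931 o_906_931 o_932_956

theorem o_1007_1057 : allTr oF tr_1007_1057 = true := allTr_mk ok_1032 o_1007_1032 o_1033_1057

theorem o_1208_1258 : allTr oF tr_1208_1258 = true := allTr_mk ok_1233 o_1208_1233 o_1234_1258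

theorem o_1409_1459 : allTr oF tr_1409_1459 = true := allTr_mk ok_1434 o_1409_1434 o_1435_1459

theorem o_303_402 : allTr oF tr_303_402 = true := allTr_mk ok_352 o_303_352 o_353_402

theorem o_705_804 : allTr oF tr_705_804 = true := allTr_mk ok_754 o_705_754 o_755_804

theorem o_1108_1207 : allTr oF tr_1108_1207 = true := allTr_mk ok_1157 o_1108_1157 o_1158_1207

theorem o_1309_1408 : allTr oF tr_1309_1408 = true := allTr_mk ok_1358 o_1309_1358 o_1359_1408

theorem o_1510_1609 : allTr oF tr_1510_1609 = true := allTr_mk ok_1559 o_1510_1559 o_1560_1609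

theorem o_0_100 : allTr oF tr_0_100 = true := allTr_mk ok_50 o_0_50 o_51_100

theorem o_101_201 : allTr oF tr_101_201 = true := allTr_mk ok_151 o_101_151 o_152_201

theorem o_202_302 : allTr oF tr_202_302 = true := allTr_mk ok_252 o_202_252 o_253_302

theorem o_805_905 : allTr oF tr_805_905 = true := allTr_mk ok_855 o_805_855 o_856_905

theorem o_906_1006 : allTr oF tr_906_1006 = true := allTr_mk ok_956 o_906_956 o_957_1006

theorem o_1007_1107 : allTr oF tr_1007_1107 = true := allTr_mk ok_1057 o_1007_1057 o_1058_1107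

theorem o_1208_1308 : allTr oF tr_1208_1308 = true := allTr_mk ok_1258 o_1208_1258 o_1259_1308

theorem o_1409_1509 : allTr oF tr_1409_1509 = true := allTr_mk ok_1459 o_1409_1459 o_1460_1509

theorem o_202_402 : allTr oF tr_202_402 = true := allTr_mk ok_302 o_202_302 o_303_402

theorem o_403_603 : allTr oF tr_403_603 = true := allTr_mk ok_503 o_403_503 o_504_603

theorem o_604_804 : allTr oF tr_604_804 = true := allTr_mk ok_704 o_604_704 o_705_804

theorem o_1007_1207 : allTr oF tr_1007_1207 = true := allTr_mk ok_1107 o_1007_1107 o_1108_1207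

theorem o_1208_1408 : allTr oF tr_1208_1408 = true := allTr_mk ok_1308 o_1208_1308 o_1309_1408

theorem o_1409_1609 : allTr oF tr_1409_1609 = true := allTr_mk ok_1509 o_1409_1509 o_1510_1609

theorem o_0_201 : allTr oF tr_0_201 = true := allTr_mk ok_100 o_0_100 o_101_201

theorem o_805_1006 : allTr oF tr_805_1006 = true := allTr_mk ok_905 o_805_905 o_906_1006

theorem o_403_804 : allTr oF tr_403_804 = true := allTr_mk ok_603 o_403_603 o_604_804

theorem o_1208_1609 : allTr oF tr_1208_1609 = true := allTr_mk ok_1408 o_1208_1408 o_1409_1609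

theorem o_0_402 : allTr oF tr_0_402 = true := allTr_mk ok_201 o_0_201 o_202_402

theorem o_805_1207 : allTr oF tr_805_1207 = true := allTr_mk ok_1006 o_805_1006 o_1007_1207

theorem o_0_804 : allTr oF tr_0_804 = true := allTr_mk ok_402 o_0_402 o_403_804

theorem o_805_1609 : allTr oF tr_805_1609 = true := allTr_mk ok_1207 o_805_1207 o_1208_1609

theorem o_0_1609 : allTr oF tr_0_1609 = true := allTr_mk ok_804 o_0_804 o_805_1609

/-- the sequence of types -/
noncomputable def y : ℕ → ℕ := gs T.M T.mul T.w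

theorem y_isG : IsG T.γ T.M T.mul T.w y := gs_isG gp (by decide +kernel) t_w (by decide +kernel)

theorem hlk : ∀ ia ib ic ie t, lk ia ib ic ie t = true → chkV P V lk t = true :=
  fun _ _ _ _ _ h => memTr_spec c_0_1609 h

theorem hbf : ∀ i, i < P.M → bf Q i = bf Q 0 := by decide +kernel

theorem hout : ∀ ia ib ic ie t, ia < P.M → ib < P.M → ic < P.M → ie < P.M →
    lk ia ib ic ie t = true → chkOV P VO Q t ia ib ic ie = true :=
  fun _ _ _ _ _ ha hb hc he h => chkOV_one hbf ha hb hc he (memTr_spec o_0_1609 h)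

theorem zero : ∃ t, chkV P V lk t = true ∧ Match P.n P.A P.B 16384 T.mul T.inv y T.vc t 0 0 0 0 := by
  refine ⟨0x1000100010004000100000000000040004000400040004000400040004000, memTr_spec c_0_1609 (by decide +kernel), ?_⟩
  apply match_zero gp y_isG.lt <;> decide +kernel

/-- `𝒜(s,8)` holds for all `s` above the threshold -/
theorem avoid (s : ℝ) (hs1 : 1 < s) (hs2 : (1 : ℝ) < (s - 1) * (3 + 1)) : Avoid s 8 := by
  have h := avoid_mainV chyp vok y_isG cert hlk hout zero act le_rfl vok' ohyp ocert s hs1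
    (by
      have e1 : ((P.B : ℕ) : ℝ) = 1 := by norm_num [P]
      have e2 : ((P.A : ℕ) : ℝ) = 3 := by norm_num [P]
      rw [e1, e2]
      exact hs2)
  exact h

end MPbbea99G.E8
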